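import Pool.Agent.H621.FX.Rk
import Pool.Agent.H802T.Wt

set_option autoImplicit false
set_option linter.unusedSectionVars false

/-!
# Normalised eigenvalues and exceptional representations
-/

namespace Pool.Agent.H621.FX

open Module Finset Function
open Pool.Agent.TH118.SG (ext0 ext0_ne ext0_mul exists_op op_ext deriv_op mem_gen)
open Pool.Agent.H802T

variable {K : Type} [Field K] {Γ : Type} [Group Γ]

/-- The normalised eigenvalues `b ^ 2 / c` of `g`: `b` is an eigenvalue, `c` the multiplier. -/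
def Nev (P : PRep K Γ) (g : Γ) (x : Kˣ) : Prop :=
  ∃ b c : Kˣ, (c : K) = P.mult g ∧ (∃ v : P.V, v ≠ 0 ∧ opr P.ρ g v = (b : K) • v) ∧
    x = b ^ 2 / c

/-- The group generated by the normalised eigenvalues of `g` on the representations `G j`. -/
def nevGrp {N : Type} (G : N → PRep K Γ) (g : Γ) : Subgroup Kˣ :=
  Subgroup.closure {x | ∃ j, Nev (G j) g x}

/-- The representation `P` is exceptional. -/
def Exc {N : Type} (G : N → PRep K Γ) (P : PRep K Γ) : Prop :=
  ∀ (g : Γ) (x : Kˣ), Nev P g x → ∃ n : ℕ, 0 < n ∧ x ^ n ∈ nevGrp G g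

/-- There is a generic element. -/
def Gnc {ι : Type} (T : ι → PRep K Γ) : Prop :=
  ∃ (g : Γ) (x : (Σ i, Fin ((T i).dim / 2)) → Kˣ), (∀ q, Nev (T q.1) g (x q)) ∧
    LinearIndependent ℤ fun q => Additive.ofMul (x q)

section half

variable [CharZero K] [IsAlgClosed K]

theorem finite_eig (P : PRep K Γ) (g : Γ) : ∃ E : Finset Kˣ, E.card ≤ P.dim ∧
    ∀ b : Kˣ, b ∈ E ↔ ∃ v : P.V, v ≠ 0 ∧ opr P.ρ g v = (b : K) • v := by
  classical
  let S : Set Kˣ := {b | ∃ v : P.V, v ≠ 0 ∧ opr P.ρ g v = (b : K) • v}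
  have h1 : ∀ b : S, ∃ v : P.V, v ≠ 0 ∧ opr P.ρ g v = ((b : Kˣ) : K) • v := fun b => b.2
  choose v hv0 hv using h1
  have hli : LinearIndependent K v := by
    refine Module.End.eigenvectors_linearIndependent' (P.ρ g) (fun b : S => ((b : Kˣ) : K))
      (fun a b h => Subtype.ext (Units.ext h)) v fun b => ?_
    rw [Module.End.hasEigenvector_iff, Module.End.mem_eigenspace_iff]
    exact ⟨hv b, hv0 b⟩
  have hfin : Finite S := hli.finite
  have := Fintype.ofFinite S
  refine ⟨S.toFinset, ?_, fun b => by rw [Set.mem_toFinset]; rfl⟩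
  rw [Set.toFinset_card]
  exact hli.fintype_card_le_finrank

/-- The normalised eigenvalues on one representation. -/
theorem half_one (P : PRep K Γ) (g : Γ) : ∃ R : Finset Kˣ, 2 * R.card ≤ P.dim ∧
    ∀ x, Nev P g x → x ∈ Subgroup.closure (R : Set Kˣ) := by
  classical
  obtain ⟨E, hE, hmem⟩ := finite_eig P g
  by_cases hc : P.mult g = 0
  · refine ⟨∅, by simp, ?_⟩
    rintro x ⟨b, c, h1, -, -⟩
    exact absurd (h1.trans hc) c.ne_zero
  · obtain ⟨R, h1, h2⟩ := exists_half (Units.mk0 _ hc) E.card E rfl (by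
      intro b hb
      obtain ⟨v, hv0, hv⟩ := (hmem b).1 hb
      rw [hmem]
      have h3 : (P.ρ g - algebraMap K (End K P.V) ((Units.mk0 _ hc / b : Kˣ) : K)).ker ≠ ⊥ := by
        intro hker
        have hsur := LinearMap.surjective_of_injective (LinearMap.ker_eq_bot.1 hker)
        apply hv0
        refine P.nondeg v fun y => ?_
        obtain ⟨y', rfl⟩ := hsur y
        have h4 := P.act g v y'
        change P.ρ g v = (b : K) • v at hv
        rw [hv, map_smul, LinearMap.smul_apply, smul_eq_mul] at h4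
        rw [LinearMap.sub_apply, Module.algebraMap_end_apply, map_sub, map_smul, smul_eq_mul]
        have hb0 : (b : K) ≠ 0 := b.ne_zero
        have h5 : ((Units.mk0 _ hc / b : Kˣ) : K) = P.mult g / (b : K) := by
          rw [Units.val_div_eq_div_val, Units.val_mk0]
        rw [h5]
        field_simp
        linear_combination h4
      obtain ⟨w, hw, hw0⟩ := Submodule.exists_mem_ne_zero_of_ne_bot h3
      refine ⟨w, hw0, ?_⟩
      rw [LinearMap.mem_ker, LinearMap.sub_apply, Module.algebraMap_end_apply, sub_eq_zero] at hw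
      exact hw)
    refine ⟨R, h1.trans hE, ?_⟩
    rintro x ⟨b, c, h3, h4, rfl⟩
    have h5 : c = Units.mk0 _ hc := Units.ext h3
    rw [h5]
    exact h2 b ((hmem b).2 h4)

/-- The rank of the group generated by the normalised eigenvalues. -/
theorem half_all {N : Type} [Fintype N] (G : N → PRep K Γ) (g : Γ) : ∃ R : Finset Kˣ,
    R.card ≤ ∑ j, (G j).dim / 2 ∧ nevGrp G g ≤ Subgroup.closure (R : Set Kˣ) := by
  classical
  choose R h1 h2 using fun j => half_one (G j) g
  refine ⟨Finset.univ.biUnion R, Finset.card_biUnion_le.trans (Finset.sum_le_sum fun j _ => by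
    have := h1 j
    omega), ?_⟩
  rw [nevGrp, Subgroup.closure_le]
  rintro x ⟨j, hj⟩
  refine Subgroup.closure_mono ?_ (h2 j x hj)
  intro y hy
  exact Finset.mem_coe.2 (Finset.mem_biUnion.2 ⟨j, Finset.mem_univ j, hy⟩)

/-- **The bound.** -/
theorem exc_bound {N : Type} [Fintype N] (G : N → PRep K Γ) {ι : Type} [Fintype ι]
    {T : ι → PRep K Γ} (hT : Gnc T) (hexc : ∀ i, Exc G (T i)) :
    ∑ i, (T i).dim / 2 ≤ ∑ j, (G j).dim / 2 := by
  classical
  obtain ⟨g, x, hx, hli⟩ := hT
  obtain ⟨R, h1, h2⟩ := half_all G g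
  have h3 := card_le_of_indep hli R fun q => by
    obtain ⟨n, hn, h4⟩ := hexc q.1 g (x q) (hx q)
    exact ⟨n, hn, h2 h4⟩
  rw [Fintype.card_sigma] at h3
  simp only [Fintype.card_fin] at h3
  exact h3.trans h1

end half

section slope

variable [CharZero K] [IsAlgClosed K]

theorem ext0_nev {P : PRep K Γ} {g : Γ} {θ : Additive Kˣ →+ K} {b c : Kˣ}
    (hc : (c : K) = P.mult g) :
    θ (Additive.ofMul (b ^ 2 / c)) = 2 * (ext0 θ (b : K) - ext0 θ (P.mult g) / 2) := by
  rw [← hc, ext0_ne θ b.ne_zero, ext0_ne θ c.ne_zero, Units.mk0_val, Units.mk0_val, ofMul_div,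
    map_sub, ofMul_pow, map_nsmul]
  ring

theorem exists_eigvec {V : Type} [AddCommGroup V] [Module K V] {f : End K V} {β : K} {x : V}
    (hx : x ∈ f.maxGenEigenspace β) (hx0 : x ≠ 0) : ∃ v : V, v ≠ 0 ∧ f v = β • v := by
  classical
  have h := mem_gen.1 hx
  have hpos : Nat.find h ≠ 0 := by
    intro h0
    have h1 := Nat.find_spec h
    rw [h0, pow_zero] at h1
    exact hx0 h1
  obtain ⟨m, hm⟩ := Nat.exists_eq_succ_of_ne_zero hpos
  have h1 := Nat.find_spec h
  have h2 := Nat.find_min h (m := m) (by omega)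
  refine ⟨((f - algebraMap K (End K V) β) ^ m) x, h2, ?_⟩
  rw [hm, Nat.succ_eq_add_one, pow_succ', Module.End.mul_apply, LinearMap.sub_apply,
    Module.algebraMap_end_apply, sub_eq_zero] at h1
  exact h1

/-- The normalised slope operator vanishes. -/
theorem slope_zero {P : PRep K Γ} {g : Γ} {θ : Additive Kˣ →+ K} {D : End K P.V}
    (hD : IsSlope θ (P.ρ g) D) (h : ∀ x, Nev P g x → θ (Additive.ofMul x) = 0) :
    D - (ext0 θ (P.mult g) / 2) • 1 = 0 := by
  rw [sub_eq_zero]
  refine op_ext (P.ρ g) fun β x hx => ?_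
  rw [(isSlope_iff (P.inj g)).1 hD β x hx, LinearMap.smul_apply, Module.End.one_apply]
  by_cases hx0 : x = 0
  · rw [hx0, smul_zero, smul_zero]
  · congr 1
    -- there is an eigenvector
    have hβ0 : β ≠ 0 := by
      rintro rfl
      exact hx0 (gen_zero (P.inj g) hx)
    obtain ⟨v, hv0, hv⟩ := exists_eigvec hx hx0
    have hc0 : P.mult g ≠ 0 := by
      intro h0
      apply hv0
      refine P.nondeg v fun y => ?_
      have h1 := P.act g v (P.ρ g⁻¹ y)
      rw [h0, zero_mul, P.rinv, hv, map_smul, LinearMap.smul_apply,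
        smul_eq_mul] at h1
      exact (mul_eq_zero.1 h1).resolve_left hβ0
    have h1 := h (Units.mk0 β hβ0 ^ 2 / Units.mk0 _ hc0)
      ⟨Units.mk0 β hβ0, Units.mk0 _ hc0, rfl, ⟨v, hv0, hv⟩, rfl⟩
    rw [ext0_nev (P := P) (g := g) rfl, Units.val_mk0] at h1
    have h2 := (mul_eq_zero.1 h1).resolve_left two_ne_zero
    exact sub_eq_zero.1 h2

theorem slope_ne {P : PRep K Γ} {g : Γ} {θ : Additive Kˣ →+ K} {D : End K P.V}
    (hD : IsSlope θ (P.ρ g) D) {x : Kˣ} (hx : Nev P g x) (h : θ (Additive.ofMul x) ≠ 0) :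
    D - (ext0 θ (P.mult g) / 2) • 1 ≠ 0 := by
  obtain ⟨b, c, hc, ⟨v, hv0, hv⟩, rfl⟩ := hx
  rw [ext0_nev (P := P) (g := g) hc] at h
  intro h0
  apply h
  have h1 : D v = ext0 θ (b : K) • v := by
    refine (isSlope_iff (P.inj g)).1 hD b v (mem_gen.2 ⟨1, ?_⟩)
    change P.ρ g v = (b : K) • v at hv
    rw [pow_one, LinearMap.sub_apply, hv, Module.algebraMap_end_apply, sub_self]
  have h2 := congrArg (fun f : End K P.V => f v) h0
  simp only [LinearMap.sub_apply, LinearMap.smul_apply, Module.End.one_apply, h1,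
    LinearMap.zero_apply] at h2
  rw [← sub_smul] at h2
  rw [(smul_eq_zero.1 h2).resolve_right hv0, mul_zero]

variable {N : Type} [Fintype N] [DecidableEq N] {F : N → PRep K Γ}

/-- Elements of the Lie algebra from an eigenvalue which is not dependent. -/
theorem van_ne {o : N} {A : Finset N} {g : Γ} {x : Kˣ} (hx : Nev (F o) g x) {H : Subgroup Kˣ}
    (hA : ∀ j ∈ A, ∀ y, Nev (F j) g y → y ∈ H) (h : ∀ n : ℕ, 0 < n → x ^ n ∉ H) :
    van F o A ≠ ⊥ := by
  obtain ⟨θ, h1, h2⟩ := exists_add (K := K) H x h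
  choose D hD using fun j => (F j).exists_slope g θ
  intro hbot
  have h3 : D o - (ext0 θ ((F o).mult g) / 2) • 1 ∈ van F o A :=
    ⟨_, slope_mem g θ hD, rfl, fun j hj => slope_zero (hD j) fun y hy => h1 y (hA j hj y hy)⟩
  rw [hbot, Submodule.mem_bot] at h3
  exact slope_ne (hD o) hx h2 h3

/-- **The Lie algebra of a factor kills all semi-invariant forms.** -/
theorem goursat' {o : N} (hbig : (F o).Big) (h0 : van F o ∅ ≠ ⊥)
    (hun : ∀ j, j ≠ o → van F o {j} ≠ ⊥) {X : End K (F o).V} (hX : X ∈ (F o).skew)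
    {I : Type} [Fintype I] [DecidableEq I] {c : I → N}
    {Φ : MultilinearMap K (fun i => (F (c i)).V) K} (hΦ : SemiInv F c Φ) (v : ∀ i, (F (c i)).V) :
    der F c (Pi.single o X) Φ v = 0 :=
  kills_of_all hbig (van_all hbig h0 hun _ (Finset.notMem_erase o _)) hX hΦ v

end slope

end Pool.Agent.H621.FX
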