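import Mathlib

set_option autoImplicit false

/-!
# Multiplicatively dependent elements
-/

namespace Pool.Agent.H621.FX

open Finset Module

section involution

variable {G : Type*} [CommGroup G]

/-- The elements `b ^ 2 / c`, `b ∈ E`, are generated by half as many elements, if `b ↦ c / b` maps `E`
to itself. -/
theorem exists_half (c : G) : ∀ (n : ℕ) (E : Finset G), E.card = n → (∀ b ∈ E, c / b ∈ E) →
    ∃ R : Finset G, 2 * R.card ≤ E.card ∧ ∀ b ∈ E, b ^ 2 / c ∈ Subgroup.closure (R : Set G) := by
  classical
  intro n
  induction n using Nat.strong_induction_on with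
  | _ n ih =>
    intro E hE hc
    rcases E.eq_empty_or_nonempty with h0 | ⟨b, hb⟩
    · subst h0
      exact ⟨∅, by simp, by simp⟩
    · by_cases hbb : c / b = b
      · obtain ⟨R, h1, h2⟩ := ih (E.erase b).card (by
          rw [← hE]; exact Finset.card_lt_card (Finset.erase_ssubset hb)) (E.erase b) rfl
          (fun e he => by
            rw [Finset.mem_erase] at he ⊢
            refine ⟨fun h => he.1 ?_, hc e he.2⟩
            rw [div_eq_iff_eq_mul] at h
            rw [div_eq_iff_eq_mul] at hbb
            rw [hbb] at h
            exact (mul_left_cancel h).symm)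
        refine ⟨R, h1.trans (Finset.card_le_card (Finset.erase_subset _ _)), fun e he => ?_⟩
        by_cases heb : e = b
        · subst heb
          have h3 : e ^ 2 / c = 1 := by
            rw [div_eq_iff_eq_mul] at hbb
            rw [hbb, pow_two, div_self']
          rw [h3]
          exact Subgroup.one_mem _
        · exact h2 e (Finset.mem_erase.2 ⟨heb, he⟩)
      · have hb' := hc b hb
        obtain ⟨R, h1, h2⟩ := ih ((E.erase b).erase (c / b)).card (by
          rw [← hE]
          exact (Finset.card_le_card (Finset.erase_subset _ _)).trans_lt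
            (Finset.card_lt_card (Finset.erase_ssubset hb))) ((E.erase b).erase (c / b)) rfl
          (fun e he => by
            rw [Finset.mem_erase, Finset.mem_erase] at he ⊢
            refine ⟨fun h => he.2.1 ?_, fun h => he.1 ?_, hc e he.2.2⟩
            · exact div_right_injective h
            · rw [← h, div_div_cancel])
        have h3 : ((E.erase b).erase (c / b)).card + 2 = E.card := by
          rw [Finset.card_erase_of_mem (Finset.mem_erase.2 ⟨hbb, hb'⟩),
            Finset.card_erase_of_mem hb]
          have h4 : 1 < E.card := Finset.one_lt_card.2 ⟨_, hb', _, hb, hbb⟩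
          omega
        refine ⟨insert (b ^ 2 / c) R, ?_, fun e he => ?_⟩
        · have h5 := Finset.card_insert_le (b ^ 2 / c) R
          omega
        · have hsub : Subgroup.closure (R : Set G) ≤
              Subgroup.closure ((insert (b ^ 2 / c) R : Finset G) : Set G) :=
            Subgroup.closure_mono (by
              rw [Finset.coe_insert]
              exact Set.subset_insert _ _)
          have hbm : b ^ 2 / c ∈ Subgroup.closure ((insert (b ^ 2 / c) R : Finset G) : Set G) :=
            Subgroup.subset_closure (by
              rw [Finset.coe_insert]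
              exact Set.mem_insert _ _)
          by_cases heb : e = b
          · subst heb
            exact hbm
          · by_cases heb' : e = c / b
            · have h6 : e ^ 2 / c = (b ^ 2 / c)⁻¹ := by
                rw [heb', inv_div, div_pow, pow_two c, div_div, mul_comm (b ^ 2) c, ← div_div,
                  mul_div_cancel_right]
              rw [h6]
              exact Subgroup.inv_mem _ hbm
            · exact hsub (h2 e (Finset.mem_erase.2 ⟨heb', Finset.mem_erase.2 ⟨heb, he⟩⟩))

end involution

section count

variable {G : Type*} [CommGroup G]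

/-- Multiplicatively independent elements with powers in a group which is generated by few
elements. -/
theorem card_le_of_indep {Q : Type*} [Fintype Q] {x : Q → G}
    (hx : LinearIndependent ℤ fun q => Additive.ofMul (x q)) (R : Finset G)
    (h : ∀ q, ∃ n : ℕ, 0 < n ∧ x q ^ n ∈ Subgroup.closure (R : Set G)) :
    Fintype.card Q ≤ R.card := by
  classical
  choose n hn hmem using h
  let R' : Finset (Additive G) := R.map Additive.ofMul.toEmbedding
  let P : Submodule ℤ (Additive G) := Submodule.span ℤ (R' : Set (Additive G))
  have hP : ∀ y ∈ Subgroup.closure (R : Set G), Additive.ofMul y ∈ P := by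
    intro y hy
    induction hy using Subgroup.closure_induction with
    | mem z hz => exact Submodule.subset_span (Finset.mem_map_of_mem _ hz)
    | one => exact P.zero_mem
    | mul a b _ _ ha hb => exact P.add_mem ha hb
    | inv a _ ha => exact P.neg_mem ha
  have hy : LinearIndependent ℤ fun q => (n q : ℤ) • Additive.ofMul (x q) := by
    rw [Fintype.linearIndependent_iff] at hx ⊢
    intro a ha q
    have h1 := hx (fun q => a q * n q) (by
      rw [← ha]
      exact Finset.sum_congr rfl fun q _ => by rw [mul_smul]) q
    have h2 : (n q : ℤ) ≠ 0 := by exact_mod_cast (hn q).ne'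
    exact (mul_eq_zero.1 h1).resolve_right h2
  have hyP : ∀ q, (n q : ℤ) • Additive.ofMul (x q) ∈ P := by
    intro q
    have h1 := hP _ (hmem q)
    rwa [ofMul_pow, ← natCast_zsmul] at h1
  have hfin : Module.Finite ℤ P := Module.Finite.span_of_finite ℤ (Finset.finite_toSet _)
  have h3 : LinearIndependent ℤ (fun q => (⟨_, hyP q⟩ : P)) := by
    apply LinearIndependent.of_comp P.subtype
    exact hy
  have h4 := h3.fintype_card_le_finrank
  refine h4.trans ((finrank_span_finset_le_card R').trans ?_)
  rw [Finset.card_map]

/-- An additive function which is zero on a subgroup, but not at a given element. -/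
theorem exists_add {K : Type*} [Field K] [CharZero K] (H : Subgroup G) (x : G)
    (hx : ∀ n : ℕ, 0 < n → x ^ n ∉ H) :
    ∃ a : Additive G →+ K, (∀ h ∈ H, a (Additive.ofMul h) = 0) ∧ a (Additive.ofMul x) ≠ 0 := by
  have hB : Module.Baer ℤ K := Module.Baer.of_divisible K
  let x' : Additive (G ⧸ H) := Additive.ofMul (QuotientGroup.mk' H x)
  let f : ℤ →ₗ[ℤ] Additive (G ⧸ H) := LinearMap.toSpanSingleton ℤ (Additive (G ⧸ H)) x'
  have hf : Function.Injective f := by
    rw [injective_iff_map_eq_zero]
    intro n hn
    have h1 : QuotientGroup.mk' H (x ^ n) = 1 := by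
      rw [map_zpow]
      exact hn
    have h2 : x ^ n ∈ H := (QuotientGroup.eq_one_iff _).1 h1
    by_contra h0
    refine hx _ (Int.natAbs_pos.2 h0) ?_
    rcases Int.natAbs_eq n with h | h
    · rw [h, zpow_natCast] at h2
      exact h2
    · rw [h, zpow_neg, zpow_natCast] at h2
      exact (Subgroup.inv_mem_iff _).1 h2
  obtain ⟨h, hh⟩ := Module.Baer.extension_property hB f hf (LinearMap.toSpanSingleton ℤ K (1 : K))
  refine ⟨h.toAddMonoidHom.comp (QuotientGroup.mk' H).toAdditive, fun y hy => ?_, ?_⟩
  · have h1 : (QuotientGroup.mk' H) y = 1 := (QuotientGroup.eq_one_iff _).2 hy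
    change h (Additive.ofMul ((QuotientGroup.mk' H) y)) = 0
    rw [h1]
    exact map_zero h
  · have h1 := congrArg (fun F : ℤ →ₗ[ℤ] K => F 1) hh
    have h2 : f 1 = x' := one_smul _ _
    simp only [LinearMap.comp_apply, h2, LinearMap.toSpanSingleton_apply, one_smul] at h1
    change h x' ≠ 0
    rw [h1]
    exact one_ne_zero

end count

end Pool.Agent.H621.FX
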