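import Pool.Agent.H621.FX.Gen
import Pool.Agent.H802T.TwrD
import Pool.Agent.H802T.LefA

/-!
# Towers over a variety and the exceptional members of a family
-/

open CategoryTheory AlgebraicGeometry Finset Function

set_option linter.unusedSectionVars false

universe u

namespace Pool.Agent.H621.FX

open Pool.Agent.TH125.Gal Pool.Agent.H802T
open Pool.Agent.H914 Pool.Agent.H914.VarClass Pool.Agent.H914.VarClass.Obj
  Pool.Agent.H914.WeilCohomology Pool.Agent.H281R3.HT Pool.Agent.W552

section rep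

variable {K : Type} [Field K] [CharZero K] [IsAlgClosed K] {Γ : Type} [Group Γ] {J N : Type}
  {T : J → PRep K Γ} {G : N → PRep K Γ}

/-- the family of all representations -/
def Fm (T : J → PRep K Γ) (G : N → PRep K Γ) : J ⊕ N → PRep K Γ := Sum.elim T G

/-- a finite part of the family -/
def Fv (T : J → PRep K Γ) (G : N → PRep K Γ) (V : Finset (J ⊕ N)) : {q // q ∈ V} → PRep K Γ :=
  fun q => Fm T G q

theorem two_le_dim {P : PRep K Γ} (hbig : P.Big) : 2 ≤ P.dim := by
  by_contra hlt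
  push Not at hlt
  obtain ⟨X, -, Y, -, hne⟩ := hbig.1
  apply hne
  have hd : Module.finrank K P.V ≤ 1 := by
    have : P.dim < 2 := hlt
    unfold PRep.dim at this
    omega
  obtain ⟨v, hv⟩ := finrank_le_one_iff.1 hd
  refine LinearMap.ext fun w => ?_
  obtain ⟨c, rfl⟩ := hv w
  obtain ⟨a, ha⟩ := hv (X v)
  obtain ⟨b, hb⟩ := hv (Y v)
  rw [Module.End.mul_apply, Module.End.mul_apply, map_smul, map_smul, map_smul, map_smul, ← ha,
    ← hb, map_smul, map_smul, ← ha, ← hb]
  simp only [smul_smul]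
  congr 1
  ring

/-- Two members of a generic family. -/
theorem exists_indep {i j : J} (hij : i ≠ j) (hi : 2 ≤ (T i).dim)
    (h : Gnc fun q : ({i, j} : Set J) => T q) :
    ∃ (g : Γ) (x : Kˣ), Nev (T i) g x ∧ ∀ n : ℕ, 0 < n →
      x ^ n ∉ Subgroup.closure {y | Nev (T j) g y} := by
  classical
  obtain ⟨g, x, hx, hli⟩ := h
  let i' : ({i, j} : Set J) := ⟨i, Set.mem_insert _ _⟩
  let j' : ({i, j} : Set J) := ⟨j, Set.mem_insert_of_mem _ rfl⟩
  have hpos : 0 < (T i).dim / 2 := by omega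
  let q₀ : Σ q : ({i, j} : Set J), Fin ((T q).dim / 2) := ⟨i', ⟨0, hpos⟩⟩
  refine ⟨g, x q₀, hx q₀, fun n hn hmem => ?_⟩
  obtain ⟨R, h1, h2⟩ := half_one (T j) g
  have hcl : Subgroup.closure {y | Nev (T j) g y} ≤ Subgroup.closure (R : Set Kˣ) := by
    rw [Subgroup.closure_le]
    exact fun y hy => h2 y hy
  let f : Option (Fin ((T j).dim / 2)) → Σ q : ({i, j} : Set J), Fin ((T q).dim / 2) := fun o =>
    match o with
    | none => q₀
    | some a => ⟨j', a⟩
  have hf : Function.Injective f := by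
    intro a b hab
    rcases a with _ | a <;> rcases b with _ | b
    · rfl
    · exfalso
      have := congrArg Sigma.fst hab
      exact hij (congrArg Subtype.val this)
    · exfalso
      have := congrArg Sigma.fst hab
      exact hij (congrArg Subtype.val this).symm
    · have h3 : (⟨j', a⟩ : Σ q : ({i, j} : Set J), Fin ((T q).dim / 2)) = ⟨j', b⟩ := hab
      rw [Sigma.mk.injEq] at h3
      rw [eq_of_heq h3.2]
  have h3 := card_le_of_indep (x := fun o => x (f o)) (hli.comp f hf) R fun o => by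
    rcases o with _ | a
    · exact ⟨n, hn, hcl hmem⟩
    · refine ⟨1, one_pos, ?_⟩
      rw [pow_one]
      exact h2 _ (hx ⟨j', a⟩)
  rw [Fintype.card_option, Fintype.card_fin] at h3
  omega

/-- The condition on the family at a member which is not exceptional. -/
theorem van_fam [Fintype N] (hbig : ∀ i, (T i).Big) (hgen : ∀ A : Finset J, Gnc fun q : A => T q)
    {i : J} (V : Finset (J ⊕ N)) [DecidableEq {q // q ∈ V}] (hi : Sum.inl i ∈ V)
    (hex : ¬ Exc G (T i)) :
    van (Fv T G V) ⟨Sum.inl i, hi⟩ ∅ ≠ ⊥ ∧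
      ∀ q : {q // q ∈ V}, q ≠ ⟨Sum.inl i, hi⟩ → van (Fv T G V) ⟨Sum.inl i, hi⟩ {q} ≠ ⊥ := by
  classical
  unfold Exc at hex
  push Not at hex
  obtain ⟨g, x, hx, hn⟩ := hex
  refine ⟨van_ne (F := Fv T G V) (o := ⟨Sum.inl i, hi⟩) hx (H := nevGrp G g)
    (fun j hj => absurd hj (Finset.notMem_empty j)) hn, ?_⟩
  rintro ⟨q, hq⟩ hne
  rcases q with j | j
  · have hij : i ≠ j := fun h => hne (by subst h; rfl)
    have h1 := hgen {i, j}
    have h2 : Gnc fun q : ({i, j} : Set J) => T q := by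
      have h3 : ((({i, j} : Finset J) : Set J)) = ({i, j} : Set J) := by simp
      rw [← h3]
      exact h1
    obtain ⟨g', x', hx', hn'⟩ := exists_indep hij (two_le_dim (hbig i)) h2
    refine van_ne (F := Fv T G V) (o := ⟨Sum.inl i, hi⟩) hx' (fun p hp y hy => ?_) hn'
    rw [Finset.mem_singleton] at hp
    subst hp
    exact Subgroup.subset_closure hy
  · refine van_ne (F := Fv T G V) (o := ⟨Sum.inl i, hi⟩) hx (H := nevGrp G g)
      (fun p hp y hy => ?_) hn
    rw [Finset.mem_singleton] at hp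
    subst hp
    exact Subgroup.subset_closure ⟨j, hy⟩

end rep

variable {k : Type u} [Field k] {𝒱 : VarClass k} {ops : CycleOps 𝒱}
  {W : WeilCohomology.{u, 0} ops} {Γ : Type} [Group Γ] {χ : Γ →* W.Kˣ}

/-- The properties of the members of the family. -/
structure Mem (χ : Γ →* W.Kˣ) {J : Type} (X : J → GVar W Γ) (T : J → PRep W.K Γ) : Prop where
  galois : ∀ i, IsGaloisAct χ (W.gr (X i).X) (X i).X.dim (W.tr (X i).X)
    (algClasses W (X i).X) (X i).act
  homEqNum : ∀ i, HomEqNum W (X i).X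
  middle : ∀ i, Within (transcendental W (X i).X) (W.gr (X i).X (X i).X.dim)
  trans : ∀ i, IsTrans (X i) (T i)
  big : ∀ i, Big (T i).ρ (T i).form
  gen : ∀ A : Finset J, Gnc fun q : A => T q

variable {J N : Type} {X : J → GVar W Γ} {T : J → PRep W.K Γ} {G : N → PRep W.K Γ} {Z : GVar W Γ}

theorem Mem.one_ne [IsAlgClosed W.K] (h : Mem χ X T) (i : J) : (1 : W.H (X i).X) ≠ 0 := by
  obtain ⟨e, -, -⟩ := h.trans i
  intro h3
  obtain ⟨A, -, B, -, hne⟩ := ((T i).big_iff.1 (h.big i)).1
  apply hne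
  have h4 : ∀ z : transcendental W (X i).X, z = 0 := by
    intro z
    apply Subtype.ext
    change (z : W.H (X i).X) = 0
    rw [← one_mul (z : W.H (X i).X), h3, zero_mul]
  have h5 : ∀ z : (T i).V, z = 0 := fun z => e.injective (by rw [h4 (e z), h4 (e 0)])
  exact LinearMap.ext fun z => by rw [h5 ((A * B) z), h5 ((B * A) z)]

/-- The indices of the finite part of the family which are used. -/
def Ix (V : Finset (J ⊕ N)) (U : Set J) : Set {q // q ∈ V} :=
  {q | ∀ j, (q : J ⊕ N) = Sum.inl j → j ∈ U}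

/-- The operators are generated by the family. -/
def GenOn (T : J → PRep W.K Γ) (G : N → PRep W.K Γ) (V : Finset (J ⊕ N)) (U : Set J)
    (Y : GVar W Γ) : Prop :=
  Generated (Fv T G V) (Ix V U) fun g => (Y.act g).toLinearMap

theorem genOn_base {B : Finset J} {V : Finset (J ⊕ N)} (hB : ∀ j ∈ B, Sum.inl j ∈ V)
    (hV : ∀ j, Sum.inr j ∈ V)
    (hZ : GeneratedBy (Sum.elim (fun j : B => T j) G) Z) : GenOn T G V (B : Set J) Z := by
  have h0 : (Sum.elim (fun j : B => T j) G : B ⊕ N → PRep W.K Γ) =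
      fun q => Fm T G (Sum.map Subtype.val id q) := by
    funext q
    rcases q with q | q <;> rfl
  rw [h0] at hZ
  intro x hx
  obtain ⟨J', ⟨v, hv⟩, Δ, hΔ, h1⟩ := hZ x hx
  obtain ⟨J₁, hJ₁⟩ := J'.exists_linear
  have hmem : ∀ i, Sum.map Subtype.val id (J'.c i) ∈ V := by
    intro i
    rcases J'.c i with q | q
    · exact hB _ q.2
    · exact hV q
  refine ⟨J'.I, J'.fin, fun i => ⟨Sum.map Subtype.val id (J'.c i), hmem i⟩, J₁, fun i j hj => ?_,
    ⟨Δ, hΔ, fun g hg => ?_⟩, fun h0 => hv ((hJ₁ x v).symm.trans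
      (congrArg (fun f : MultilinearMap W.K
        (fun i => (Fm T G (Sum.map Subtype.val id (J'.c i))).V) W.K => f v) h0))⟩
  · change Sum.map Subtype.val id (J'.c i) = Sum.inl j at hj
    revert hj
    rcases J'.c i with q | q
    · intro hj
      rw [Sum.map_inl, Sum.inl.injEq] at hj
      rw [← hj]
      exact q.2
    · intro hj
      rw [Sum.map_inr] at hj
      exact absurd hj Sum.inr_ne_inl
  · obtain ⟨μ, hμ⟩ := h1 g hg
    refine ⟨μ, fun z v => ?_⟩
    exact ((hJ₁ _ _).trans (hμ z v)).trans (congrArg (fun t => μ * t) (hJ₁ z v).symm)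


theorem whole [IsAlgClosed W.K] [Finite N] (h : Mem χ X T) {Y : GVar W Γ} {i : J}
    (hex : ¬ Exc G (T i)) {V : Finset (J ⊕ N)} (hi : Sum.inl i ∈ V) {U : Set J} (hiU : i ∉ U)
    (hY : GenOn T G V U Y) :
    Whole (P := ⟨(X i).X, 0⟩) (Z := Y.X) (isGalois (h.galois i)) Y.act := by
  classical
  have := Fintype.ofFinite N
  obtain ⟨e, he, hform⟩ := h.trans i
  have hbig : ∀ i, (T i).Big := fun i => (T i).big_iff.1 (h.big i)
  obtain ⟨hv0, hv1⟩ := van_fam (G := G) hbig h.gen V hi hex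
  have hA : (⟨Sum.inl i, hi⟩ : {q // q ∈ V}) ∉ Ix V U := fun h' => hiU (h' i rfl)
  intro S _ _ lam φ hφ Y' hY' v
  obtain ⟨Δ, hΔ, h1⟩ := hφ
  have h2 := kill_gen (F := Fv T G V) (o := ⟨Sum.inl i, hi⟩) (hbig i) hv0 hv1 hA hY (S := S)
    (h := (φ.compLinearMap fun _ => e.toLinearMap : MultilinearMap W.K (fun _ : S => (T i).V)
      (W.H Y.X)))
    ⟨Δ, hΔ, fun g hg => ⟨(lam g : W.K), fun v => ?_⟩⟩
    (X := (e.symm.toLinearMap ∘ₗ Y' ∘ₗ e.toLinearMap : Module.End W.K (T i).V)) ?_
    (fun j => e.symm (v j))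
  · rw [← h2]
    refine Finset.sum_congr rfl fun j _ => ?_
    have h3 : (fun l => e (update (fun j => e.symm (v j)) j (e.symm (Y' (e (e.symm (v j))))) l)) =
        update v j (Y' (v j)) := by
      funext l
      by_cases hl : l = j
      · subst hl
        rw [update_self, update_self, LinearEquiv.apply_symm_apply, LinearEquiv.apply_symm_apply]
      · rw [update_of_ne hl, update_of_ne hl, LinearEquiv.apply_symm_apply]
    exact (congrArg φ h3).symm
  · have h4 : (fun j => e ((T i).ρ g (v j))) =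
        fun j => rhoT (isGalois (h.galois i)) g (e (v j)) := by
      funext j
      exact Subtype.ext (he g (v j))
    exact (congrArg φ h4).trans (h1 g hg fun j => e (v j))
  · have h5 : ∀ x y : (T i).V, val (T i).form (e.symm (Y' (e x))) y +
        val (T i).form x (e.symm (Y' (e y))) = 0 := by
      intro x y
      rw [hform, hform, LinearEquiv.apply_symm_apply, LinearEquiv.apply_symm_apply]
      exact hY' (e x) (e y)
    exact h5

/-- The set of the indices of a tower is finite. -/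
theorem tower_fin {U : Set J} {Y : GVar W Γ} (hY : Tower X T Z U Y) : U.Finite := by
  induction hY with
  | base => exact Set.finite_empty
  | step i n hT hi hn hP ih => exact ih.insert i

/-- The cohomology of towers is generated by the family. -/
theorem genOn_tower [IsAlgClosed W.K] [Finite N] (h : Mem χ X T) {B : Finset J}
    {V : Finset (J ⊕ N)} (hV : ∀ j, Sum.inr j ∈ V) (hB : ∀ j ∈ B, Sum.inl j ∈ V)
    (hZ : GeneratedBy (Sum.elim (fun j : B => T j) G) Z) {U : Set J} {Y : GVar W Γ}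
    (hY : Tower X T Z U Y) (hU : ∀ j ∈ U, Sum.inl j ∈ V) :
    GenOn T G V ((B : Set J) ∪ U) Y := by
  classical
  have := Fintype.ofFinite N
  induction hY with
  | base =>
    rw [Set.union_empty]
    exact genOn_base hB hV hZ
  | @step S Y Y' i n hT hi hn hP ih =>
    have ihg := ih fun j hj => hU j (Set.mem_insert_of_mem _ hj)
    obtain ⟨YX, υ⟩ := Y'
    obtain ⟨h0, h1, h2⟩ := hP
    change YX = powTimes (X i) n Y at h0
    subst h0
    simp only [eqToHom_refl, Category.id_comp] at h1 h2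
    have hPA := isPowAct h1 h2
    obtain ⟨e, he, hform⟩ := h.trans i
    have hiV := hU i (Set.mem_insert _ _)
    have h3 := generated_prod (P := ⟨(X i).X, 0⟩) (F := Fv T G V) (h.homEqNum i)
      (isGalois (h.galois i)) hPA ihg ⟨Sum.inl i, hiV⟩ e.toLinearMap e.surjective
      (fun g x => Subtype.ext (he g x))
    have h4 : insert (⟨Sum.inl i, hiV⟩ : {q // q ∈ V}) (Ix V ((B : Set J) ∪ S)) ⊆
        Ix V ((B : Set J) ∪ insert i S) := by
      intro q hq j hj
      rcases hq with rfl | hq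
      · have h5 : i = j := Sum.inl.inj hj
        rw [← h5]
        exact Or.inr (Set.mem_insert _ _)
      · rcases hq j hj with h5 | h5
        · exact Or.inl h5
        · exact Or.inr (Set.mem_insert_of_mem _ h5)
    intro x hx
    obtain ⟨I, hI, c, J', hc, h5⟩ := h3 x hx
    exact ⟨I, hI, c, J', fun i => h4 (hc i), h5⟩

/-- **One step.** The varieties of a tower and the members which are not exceptional. -/
theorem step_whole [IsAlgClosed W.K] [Finite N] (h : Mem χ X T) {B : Finset J}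
    (hZ : GeneratedBy (Sum.elim (fun j : B => T j) G) Z) {U : Set J} {Y : GVar W Γ}
    (hY : Tower X T Z U Y) {i : J} (hiU : i ∉ U) (hiB : i ∉ B) (hex : ¬ Exc G (T i)) :
    Whole (P := ⟨(X i).X, 0⟩) (Z := Y.X) (isGalois (h.galois i)) Y.act := by
  classical
  have := Fintype.ofFinite N
  let V : Finset (J ⊕ N) := (insert i (B ∪ (tower_fin hY).toFinset)).map ⟨Sum.inl, Sum.inl_injective⟩ ∪
    Finset.univ.map ⟨Sum.inr, Sum.inr_injective⟩
  have hV : ∀ j : N, Sum.inr j ∈ V := fun j => Finset.mem_union_right _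
    (Finset.mem_map.2 ⟨j, Finset.mem_univ j, rfl⟩)
  have hV' : ∀ j ∈ insert i (B ∪ (tower_fin hY).toFinset), (Sum.inl j : J ⊕ N) ∈ V := fun j hj =>
    Finset.mem_union_left _ (Finset.mem_map.2 ⟨j, hj, rfl⟩)
  have hi : (Sum.inl i : J ⊕ N) ∈ V := hV' i (Finset.mem_insert_self _ _)
  have hg := genOn_tower h (V := V) hV (fun j hj => hV' j (Finset.mem_insert_of_mem
    (Finset.mem_union_left _ hj))) hZ hY (fun j hj => hV' j (Finset.mem_insert_of_mem
    (Finset.mem_union_right _ ((tower_fin hY).mem_toFinset.2 hj))))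
  exact whole h hex hi (fun h' => h'.elim (fun h'' => hiB h'') hiU) hg

/-- **The Tate conjecture for towers.** -/
theorem tate_tower [IsAlgClosed W.K] [Finite N] (h : Mem χ X T) {B : Finset J}
    (hZ : GeneratedBy (Sum.elim (fun j : B => T j) G) Z) {U : Set J} {Y : GVar W Γ}
    (hY : Tower X T Z U Y) (hU : ∀ i ∈ U, i ∉ B ∧ ¬ Exc G (T i)) :
    TateConjecture χ Y ↔ TateConjecture χ Z := by
  induction hY with
  | base => exact Iff.rfl
  | @step S Y Y' i n hT hi hn hP ih =>
    have iht := ih fun j hj => hU j (Set.mem_insert_of_mem _ hj)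
    obtain ⟨hiB, hex⟩ := hU i (Set.mem_insert _ _)
    have hw := step_whole h hZ hT hi hiB hex
    obtain ⟨YX, υ⟩ := Y'
    obtain ⟨h0, h1, h2⟩ := hP
    change YX = powTimes (X i) n Y at h0
    subst h0
    simp only [eqToHom_refl, Category.id_comp] at h1 h2
    have hPA := isPowAct h1 h2
    obtain ⟨e, he, hform⟩ := h.trans i
    rw [← iht]
    constructor
    · exact tate_conv (P := ⟨(X i).X, 0⟩) (h.homEqNum i) (h.one_ne i) hPA
    · exact tate_step2 (P := ⟨(X i).X, 0⟩) (h.homEqNum i) (h.middle i)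
        (isGalois (h.galois i)) hPA (fun h' => (hn h').trans_eq e.finrank_eq) hw

/-- **The conjecture D for towers.** -/
theorem homEqNum_tower [IsAlgClosed W.K] [Finite N] (h : Mem χ X T) {B : Finset J}
    (hZ : GeneratedBy (Sum.elim (fun j : B => T j) G) Z)
    (hgal : ∀ S Y, Tower X T Z S Y → IsGaloisVar χ Y) {U : Set J} {Y : GVar W Γ}
    (hY : Tower X T Z U Y) (hU : ∀ i ∈ U, i ∉ B ∧ ¬ Exc G (T i)) :
    HomEqNum W Y.X ↔ HomEqNum W Z.X := by
  induction hY with
  | base => exact Iff.rfl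
  | @step S Y Y' i n hT hi hn hP ih =>
    have iht := ih fun j hj => hU j (Set.mem_insert_of_mem _ hj)
    obtain ⟨hiB, hex⟩ := hU i (Set.mem_insert _ _)
    have hw := step_whole h hZ hT hi hiB hex
    have hY' := hgal _ _ (Tower.step i n hT hi hn hP)
    obtain ⟨YX, υ⟩ := Y'
    obtain ⟨h0, h1, h2⟩ := hP
    change YX = powTimes (X i) n Y at h0
    subst h0
    simp only [eqToHom_refl, Category.id_comp] at h1 h2
    have hPA := isPowAct h1 h2
    obtain ⟨e, he, hform⟩ := h.trans i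
    rw [← iht]
    exact homEqNum_iff_pow (P := ⟨(X i).X, 0⟩) (h.homEqNum i) (h.middle i)
      (isGalois (h.galois i)) hPA (isGalois hY') (fun h' => (hn h').trans_eq e.finrank_eq)
      hw (h.one_ne i)

/-- **The conjecture A for towers.** -/
theorem lefAll_tower [IsAlgClosed W.K] [Finite N] (h : Mem χ X T) {B : Finset J}
    (hZ : GeneratedBy (Sum.elim (fun j : B => T j) G) Z)
    (hgal : ∀ S Y, Tower X T Z S Y → IsGaloisVar χ Y)
    (hHL : ∀ i, ∃ D, (X i).X.IsCyc 1 D ∧ HardLefschetz W (X i).X D) {U : Set J} {Y : GVar W Γ}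
    (hY : Tower X T Z U Y) (hU : ∀ i ∈ U, i ∉ B ∧ ¬ Exc G (T i)) :
    LefAll W Y.X ↔ LefAll W Z.X := by
  induction hY with
  | base => exact Iff.rfl
  | @step S Y Y' i n hT hi hn hP ih =>
    have iht := ih fun j hj => hU j (Set.mem_insert_of_mem _ hj)
    obtain ⟨hiB, hex⟩ := hU i (Set.mem_insert _ _)
    have hw := step_whole h hZ hT hi hiB hex
    have hY' := hgal _ _ (Tower.step i n hT hi hn hP)
    obtain ⟨YX, υ⟩ := Y'
    obtain ⟨h0, h1, h2⟩ := hP
    change YX = powTimes (X i) n Y at h0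
    subst h0
    simp only [eqToHom_refl, Category.id_comp] at h1 h2
    have hPA := isPowAct h1 h2
    obtain ⟨e, he, hform⟩ := h.trans i
    obtain ⟨D, hD, hDL⟩ := hHL i
    rw [← iht]
    exact lefAll_iff_pow (P := ⟨(X i).X, 0⟩) (h.homEqNum i) (h.middle i)
      (isGalois (h.galois i)) hPA (isGalois hY') (fun h' => (hn h').trans_eq e.finrank_eq)
      hw (h.one_ne i) hD hDL

/-- **The exceptional members.** -/
theorem exists_exc [IsAlgClosed W.K] [Fintype N] (h : Mem χ X T) (G : N → PRep W.K Γ) :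
    ∃ S : Finset J, ∑ i ∈ S, (T i).dim / 2 ≤ ∑ j, (G j).dim / 2 ∧ ∀ i, i ∈ S ↔ Exc G (T i) := by
  classical
  have hb : ∀ A : Finset J, (∀ i ∈ A, Exc G (T i)) →
      ∑ i ∈ A, (T i).dim / 2 ≤ ∑ j, (G j).dim / 2 := by
    intro A hA
    have h1 := exc_bound G (h.gen A) (fun i => hA i i.2)
    rwa [Finset.sum_coe_sort A fun i => (T i).dim / 2] at h1
  have h2 : ∀ i, 1 ≤ (T i).dim / 2 := fun i => by
    have := two_le_dim ((T i).big_iff.1 (h.big i))
    omega
  have hfin : {i | Exc G (T i)}.Finite := by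
    by_contra hinf
    obtain ⟨A, hA, hcard⟩ := Set.Infinite.exists_subset_card_eq hinf
      (∑ j, (G j).dim / 2 + 1)
    have h3 := hb A fun i hi => hA hi
    have h4 : A.card ≤ ∑ i ∈ A, (T i).dim / 2 := by
      rw [Finset.card_eq_sum_ones]
      exact Finset.sum_le_sum fun i _ => h2 i
    omega
  exact ⟨hfin.toFinset, hb _ fun i hi => hfin.mem_toFinset.1 hi, fun i => hfin.mem_toFinset⟩

end Pool.Agent.H621.FX
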